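import Pool.Agent.H20.TM.Rec

/-!
Simultaneous linear and quadratic recurrence (project TM4, problem MP_b6022c_nt).
-/

set_option maxHeartbeats 4000000

namespace Pool.Agent.H33.TM4

open Finset Pool.Agent.H9.TC Pool.Agent.H20.TM

lemma rc_nat_mul_le {g h : ℕ} {E : ℕ} {x : ℝ} (hE : E ≤ 2 ^ g) (hx : nn x ≤ (1 / 2) ^ (g + h)) :
    nn (E * x) ≤ (1 / 2) ^ h := by
  calc nn (E * x) ≤ E * nn x := nn_nat_mul E x
    _ ≤ (2 : ℝ) ^ g * (1 / 2) ^ (g + h) := by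
        apply mul_le_mul _ hx (nn_nonneg _) (by positivity)
        exact_mod_cast hE
    _ = (1 / 2) ^ h := by
        rw [pow_add, ← mul_assoc, ← mul_pow]
        norm_num

lemma rc_prod_le {D E a b c : ℕ} (hE : E ≤ 2 ^ b) (hD : D ≤ 2 ^ a) (h : b + a ≤ c) :
    E * D ≤ 2 ^ c :=
  (Nat.mul_le_mul hE hD).trans ((pow_add 2 b a).symm.le.trans
    (Nat.pow_le_pow_right (by norm_num) h))

lemma rc_sq_le {E a c : ℕ} (hE : E ≤ 2 ^ a) (h : 2 * a = c) : E ^ 2 ≤ 2 ^ c := by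
  subst h
  rw [mul_comm, pow_mul]
  exact Nat.pow_le_pow_left hE 2

/-- linear recurrence for one number -/
theorem lin_rec (g : ℕ) (a : ℝ) : ∃ D : ℕ, 1 ≤ D ∧ D ≤ 2 ^ g ∧ nn ((D : ℝ) * a) ≤ (1 / 2) ^ g := by
  obtain ⟨k, hk, hk2, hk3⟩ := Real.exists_nat_abs_mul_sub_round_le a
    (show 0 < 2 ^ g by positivity)
  refine ⟨k, hk, hk2, ?_⟩
  have h1 : nn ((k : ℝ) * a) ≤ 1 / (((2 ^ g : ℕ) : ℝ) + 1) := hk3
  refine h1.trans ?_
  rw [one_div_pow]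
  apply one_div_le_one_div_of_le (by positivity)
  push_cast
  linarith

theorem lin_rec_many (m : ℕ) : ∃ C : ℕ, ∀ kap : ℕ, 1 ≤ kap → ∀ a : Fin m → ℝ,
    ∃ D : ℕ, 1 ≤ D ∧ D ≤ 2 ^ (C * kap) ∧ ∀ i, nn ((D : ℝ) * a i) ≤ (1 / 2) ^ kap := by
  induction m with
  | zero => exact ⟨0, fun kap _ a => ⟨1, le_rfl, by simp, fun i => i.elim0⟩⟩
  | succ m ih =>
    obtain ⟨C, hC⟩ := ih
    refine ⟨2 * C + 1, fun kap hk a => ?_⟩
    obtain ⟨D, hD1, hD2, hD3⟩ := hC (kap + kap) (by omega) (fun i => a i.castSucc)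
    obtain ⟨E, hE1, hE2, hE3⟩ := lin_rec kap ((D : ℝ) * a (Fin.last m))
    refine ⟨E * D, Nat.mul_pos hE1 hD1, ?_, ?_⟩
    · refine rc_prod_le hE2 hD2 (le_of_eq ?_)
      ring
    · intro i
      refine Fin.lastCases ?_ (fun i => ?_) i
      · rw [Nat.cast_mul, mul_assoc]
        exact hE3
      · rw [Nat.cast_mul, mul_assoc]
        exact rc_nat_mul_le hE2 (hD3 i)

theorem quad_rec_many (m : ℕ) : ∃ C : ℕ, ∀ kap : ℕ, 1 ≤ kap → ∀ b : Fin m → ℝ,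
    ∃ D : ℕ, 1 ≤ D ∧ D ≤ 2 ^ (C * kap) ∧ ∀ i, nn ((D : ℝ) ^ 2 * b i) ≤ (1 / 2) ^ kap := by
  induction m with
  | zero => exact ⟨0, fun kap _ a => ⟨1, le_rfl, by simp, fun i => i.elim0⟩⟩
  | succ m ih =>
    obtain ⟨C, hC⟩ := ih
    refine ⟨47 * C + 23, fun kap hk b => ?_⟩
    obtain ⟨D, hD1, hD2, hD3⟩ := hC (2 * (11 * kap + 12) + kap) (by omega)
      (fun i => b i.castSucc)
    obtain ⟨E, hE1, hE2, hE3⟩ := quad_rec kap ((D : ℝ) ^ 2 * b (Fin.last m))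
    have hE2' : E ^ 2 ≤ 2 ^ (2 * (11 * kap + 12)) := rc_sq_le hE2 rfl
    refine ⟨E * D, Nat.mul_pos hE1 hD1, ?_, ?_⟩
    · refine rc_prod_le hE2 hD2 ?_
      have h1 : C * 1 ≤ C * kap := Nat.mul_le_mul_left C hk
      have h2 : C * (2 * (11 * kap + 12) + kap) = 23 * (C * kap) + 24 * C := by ring
      have h3 : (47 * C + 23) * kap = 47 * (C * kap) + 23 * kap := by ring
      rw [h2, h3]
      omega
    · intro i
      refine Fin.lastCases ?_ (fun i => ?_) i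
      · rw [Nat.cast_mul, mul_pow, mul_assoc]
        exact hE3
      · rw [Nat.cast_mul, mul_pow, mul_assoc]
        have := rc_nat_mul_le hE2' (hD3 i)
        rw [Nat.cast_pow] at this
        exact this

/-- Simultaneous linear and quadratic recurrence. -/
theorem rec_many (m : ℕ) : ∃ C : ℕ, ∀ kap : ℕ, 1 ≤ kap → ∀ a b : Fin m → ℝ,
    ∃ D : ℕ, 1 ≤ D ∧ D ≤ 2 ^ (C * kap) ∧ (∀ i, nn ((D : ℝ) * a i) ≤ (1 / 2) ^ kap) ∧
      ∀ i, nn ((D : ℝ) ^ 2 * b i) ≤ (1 / 2) ^ kap := by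
  obtain ⟨C1, hC1⟩ := lin_rec_many m
  obtain ⟨C2, hC2⟩ := quad_rec_many m
  refine ⟨C1 + C2 * (2 * C1 + 1), fun kap hk a b => ?_⟩
  obtain ⟨D, hD1, hD2, hD3⟩ := hC2 (2 * (C1 * kap) + kap) (by omega) b
  obtain ⟨E, hE1, hE2, hE3⟩ := hC1 kap hk (fun i => (D : ℝ) * a i)
  have hE2' : E ^ 2 ≤ 2 ^ (2 * (C1 * kap)) := rc_sq_le hE2 rfl
  refine ⟨E * D, Nat.mul_pos hE1 hD1, ?_, fun i => ?_, fun i => ?_⟩
  · refine rc_prod_le hE2 hD2 (le_of_eq ?_)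
    ring
  · rw [Nat.cast_mul, mul_assoc]
    exact hE3 i
  · rw [Nat.cast_mul, mul_pow, mul_assoc]
    have := rc_nat_mul_le hE2' (hD3 i)
    rw [Nat.cast_pow] at this
    exact this

end Pool.Agent.H33.TM4
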