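import Pool.Agent.H20.TM.Rec

/-!
Weak Weyl inequalities for quadratic and cubic phases (project TM4, problem MP_b6022c_nt).
-/

set_option maxHeartbeats 4000000

namespace Pool.Agent.H33.TM4

open Finset Pool.Agent.H9.TC Pool.Agent.H20.TM

/-- van der Corput for complex sums. -/
theorem vdc (f : ℕ → ℂ) (hf : ∀ n, ‖f n‖ ≤ 1) (X J : ℕ) (W : ℝ) (hW : 0 ≤ W)
    (h : ∀ j < J, ∀ j' < J, j ≠ j' →
      ‖∑ n ∈ range X, f (n + j) * (starRingEnd ℂ) (f (n + j'))‖ ≤ W) :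
    (J : ℝ) * ‖∑ n ∈ range X, f n‖ ≤
      (J : ℝ) ^ 2 + Real.sqrt (X * ((J : ℝ) * X + (J : ℝ) ^ 2 * W)) := by
  have h1 := shift_avg f hf X J
  have e1 : ∀ n : ℕ, ((‖∑ j ∈ range J, f (n + j)‖ ^ 2 : ℝ) : ℂ) =
      ∑ j ∈ range J, ∑ j' ∈ range J, f (n + j) * (starRingEnd ℂ) (f (n + j')) := by
    intro n
    have := Complex.mul_conj (∑ j ∈ range J, f (n + j))
    rw [Complex.normSq_eq_norm_sq] at this
    rw [← this, map_sum, sum_mul_sum]
  have e2 : ((∑ n ∈ range X, ‖∑ j ∈ range J, f (n + j)‖ ^ 2 : ℝ) : ℂ) =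
      ∑ j ∈ range J, ∑ j' ∈ range J, ∑ n ∈ range X,
        f (n + j) * (starRingEnd ℂ) (f (n + j')) := by
    rw [Complex.ofReal_sum, sum_congr rfl fun n _ => e1 n, sum_comm]
    refine sum_congr rfl fun j _ => ?_
    rw [sum_comm]
  have e3 : ∑ n ∈ range X, ‖∑ j ∈ range J, f (n + j)‖ ^ 2 =
      ‖∑ j ∈ range J, ∑ j' ∈ range J, ∑ n ∈ range X,
        f (n + j) * (starRingEnd ℂ) (f (n + j'))‖ := by
    rw [← e2, Complex.norm_real, Real.norm_eq_abs, abs_of_nonneg]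
    exact sum_nonneg fun n _ => by positivity
  have e4 : ∀ j ∈ range J, ∀ j' ∈ range J, ‖∑ n ∈ range X,
      f (n + j) * (starRingEnd ℂ) (f (n + j'))‖ ≤ (if j = j' then (X : ℝ) else 0) + W := by
    intro j hj j' hj'
    rw [mem_range] at hj hj'
    split_ifs with hjj
    · have : ‖∑ n ∈ range X, f (n + j) * (starRingEnd ℂ) (f (n + j'))‖ ≤ X := by
        refine (norm_sum_le _ _).trans ?_
        have h5 : ∀ n ∈ range X, ‖f (n + j) * (starRingEnd ℂ) (f (n + j'))‖ ≤ 1 := by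
          intro n _
          rw [norm_mul, RCLike.norm_conj]
          exact mul_le_one₀ (hf _) (norm_nonneg _) (hf _)
        refine (sum_le_sum h5).trans ?_
        simp
      linarith
    · rw [zero_add]
      exact h j hj j' hj' hjj
  have h2 : ∑ n ∈ range X, ‖∑ j ∈ range J, f (n + j)‖ ^ 2 ≤ (J : ℝ) * X + (J : ℝ) ^ 2 * W := by
    rw [e3]
    refine (norm_sum_le _ _).trans ((sum_le_sum fun j _ => norm_sum_le _ _).trans
      ((sum_le_sum fun j hj => sum_le_sum fun j' hj' => e4 j hj j' hj').trans ?_))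
    apply le_of_eq
    simp only [sum_add_distrib, sum_ite_eq, sum_const, card_range, nsmul_eq_mul, mem_range]
    have : ∀ j ∈ range J, (if j < J then (X : ℝ) else 0) = X := by
      intro j hj
      rw [if_pos (mem_range.1 hj)]
    rw [sum_congr rfl this]
    simp
    ring
  have h3 : (∑ n ∈ range X, ‖∑ j ∈ range J, f (n + j)‖) ^ 2 ≤
      X * ∑ n ∈ range X, ‖∑ j ∈ range J, f (n + j)‖ ^ 2 := by
    have := sq_sum_le_card_mul_sum_sq (s := range X) (f := fun n => ‖∑ j ∈ range J, f (n + j)‖)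
    rwa [card_range] at this
  have h4 : ∑ n ∈ range X, ‖∑ j ∈ range J, f (n + j)‖ ≤
      Real.sqrt (X * ((J : ℝ) * X + (J : ℝ) ^ 2 * W)) := by
    apply Real.le_sqrt_of_sq_le
    exact h3.trans (mul_le_mul_of_nonneg_left h2 (Nat.cast_nonneg _))
  linarith

/-- The same, divided by `J`. -/
theorem vdc' (f : ℕ → ℂ) (hf : ∀ n, ‖f n‖ ≤ 1) (X J : ℕ) (hJ : 0 < J) (W : ℝ) (hW : 0 ≤ W)
    (h : ∀ j < J, ∀ j' < J, j ≠ j' →
      ‖∑ n ∈ range X, f (n + j) * (starRingEnd ℂ) (f (n + j'))‖ ≤ W) :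
    ‖∑ n ∈ range X, f n‖ ≤ J + Real.sqrt (X * ((X : ℝ) / J + W)) := by
  have h1 := vdc f hf X J W hW h
  have hJ' : (0 : ℝ) < J := Nat.cast_pos.2 hJ
  have e : Real.sqrt (X * ((J : ℝ) * X + (J : ℝ) ^ 2 * W)) =
      J * Real.sqrt (X * ((X : ℝ) / J + W)) := by
    rw [show (X : ℝ) * ((J : ℝ) * X + (J : ℝ) ^ 2 * W) = (J : ℝ) ^ 2 * (X * ((X : ℝ) / J + W)) by
      field_simp]
    rw [Real.sqrt_mul (by positivity), Real.sqrt_sq hJ'.le]
  rw [e] at h1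
  have h2 : (J : ℝ) * ‖∑ n ∈ range X, f n‖ ≤ J * (J + Real.sqrt (X * ((X : ℝ) / J + W))) := by
    linarith
  exact le_of_mul_le_mul_left h2 hJ'

/-- Weak Weyl inequality for quadratic phases. -/
theorem w2 (t2 t1 t0 η : ℝ) (X J : ℕ) (hJ : 0 < J) (hη : 0 < η)
    (h : ∀ i : ℕ, 1 ≤ i → i < J → η < nn (2 * i * t2)) :
    ‖∑ n ∈ range X, ee (t2 * (n : ℝ) ^ 2 + t1 * n + t0)‖ ≤
      J + Real.sqrt (X * ((X : ℝ) / J + 1 / (2 * η))) := by
  refine vdc' (fun n => ee (t2 * (n : ℝ) ^ 2 + t1 * n + t0)) (fun n => (f2_norm_ee _).le) X J hJ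
    (1 / (2 * η)) (by positivity) ?_
  intro j hj j' hj' hjj
  have e1 : ∑ n ∈ range X, ee (t2 * ((n + j : ℕ) : ℝ) ^ 2 + t1 * ((n + j : ℕ) : ℝ) + t0) *
      (starRingEnd ℂ) (ee (t2 * ((n + j' : ℕ) : ℝ) ^ 2 + t1 * ((n + j' : ℕ) : ℝ) + t0)) =
      ∑ n ∈ range X, ee (2 * ((j : ℝ) - j') * t2 * n +
        (t2 * ((j : ℝ) ^ 2 - (j' : ℝ) ^ 2) + t1 * ((j : ℝ) - j'))) := by
    refine sum_congr rfl fun n _ => ?_
    rw [← f2_ee_neg, ← f2_ee_add]
    congr 1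
    push_cast
    ring
  rw [e1]
  have h1 := lin_sum_le X (2 * ((j : ℝ) - j') * t2)
    (t2 * ((j : ℝ) ^ 2 - (j' : ℝ) ^ 2) + t1 * ((j : ℝ) - j'))
  have h2 : η < nn (2 * ((j : ℝ) - j') * t2) := by
    rcases lt_or_gt_of_ne hjj with h3 | h3
    · have := h (j' - j) (by omega) (by omega)
      rw [Nat.cast_sub h3.le] at this
      rw [← nn_neg]
      convert this using 2
      ring
    · have := h (j - j') (by omega) (by omega)
      rw [Nat.cast_sub h3.le] at this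
      exact this
  have h4 := norm_nonneg (∑ n ∈ range X, ee (2 * ((j : ℝ) - j') * t2 * n +
        (t2 * ((j : ℝ) ^ 2 - (j' : ℝ) ^ 2) + t1 * ((j : ℝ) - j'))))
  rw [le_div_iff₀ (by positivity)]
  nlinarith

/-- Weak Weyl inequality for cubic phases. -/
theorem w3 (t3 t2 t1 t0 η : ℝ) (X J : ℕ) (hJ : 0 < J) (hη : 0 < η)
    (h : ∀ i i' : ℕ, 1 ≤ i → i < J → 1 ≤ i' → i' < J → η < nn (6 * i * i' * t3)) :
    ‖∑ n ∈ range X, ee (t3 * (n : ℝ) ^ 3 + t2 * (n : ℝ) ^ 2 + t1 * n + t0)‖ ≤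
      J + Real.sqrt (X * ((X : ℝ) / J +
        (J + Real.sqrt (X * ((X : ℝ) / J + 1 / (2 * η)))))) := by
  refine vdc' (fun n => ee (t3 * (n : ℝ) ^ 3 + t2 * (n : ℝ) ^ 2 + t1 * n + t0))
    (fun n => (f2_norm_ee _).le) X J hJ _ (by positivity) ?_
  intro j hj j' hj' hjj
  have e1 : ∑ n ∈ range X, ee (t3 * ((n + j : ℕ) : ℝ) ^ 3 + t2 * ((n + j : ℕ) : ℝ) ^ 2 +
        t1 * ((n + j : ℕ) : ℝ) + t0) *
      (starRingEnd ℂ) (ee (t3 * ((n + j' : ℕ) : ℝ) ^ 3 + t2 * ((n + j' : ℕ) : ℝ) ^ 2 +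
        t1 * ((n + j' : ℕ) : ℝ) + t0)) =
      ∑ n ∈ range X, ee (3 * ((j : ℝ) - j') * t3 * (n : ℝ) ^ 2 +
        (3 * t3 * ((j : ℝ) ^ 2 - (j' : ℝ) ^ 2) + 2 * t2 * ((j : ℝ) - j')) * n +
        (t3 * ((j : ℝ) ^ 3 - (j' : ℝ) ^ 3) + t2 * ((j : ℝ) ^ 2 - (j' : ℝ) ^ 2) +
          t1 * ((j : ℝ) - j'))) := by
    refine sum_congr rfl fun n _ => ?_
    rw [← f2_ee_neg, ← f2_ee_add]
    congr 1
    push_cast
    ring
  rw [e1]
  apply w2 _ _ _ η X J hJ hη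
  intro i hi hi'
  rcases lt_or_gt_of_ne hjj with h3 | h3
  · have := h i (j' - j) hi hi' (by omega) (by omega)
    rw [Nat.cast_sub h3.le] at this
    rw [← nn_neg]
    convert this using 2
    ring
  · have := h i (j - j') hi hi' (by omega) (by omega)
    rw [Nat.cast_sub h3.le] at this
    convert this using 2
    ring

end Pool.Agent.H33.TM4
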